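import Pool.Agent.Y234.EM.Stm

/-!
# More elements than variables satisfy a relation in the fibre cone
-/

set_option autoImplicit false

namespace Pool.Agent.Y655.EM

open Pool.Agent.Y234.EM

/-- monomials of degree `≥ n` -/
theorem prod_mem {R : Type} [CommRing R] {D : ℕ} {J : Ideal R} {g : Fin D → R}
    (hg : ∀ l, g l ∈ J) (b : Fin D → ℕ) : ∏ l, g l ^ b l ∈ J ^ ∑ l, b l := by
  rw [← Finset.prod_pow_eq_pow_sum]
  exact Ideal.prod_mem_prod fun l _ => Ideal.pow_mem_pow (hg l) _

theorem aeval_mem {k : Type} [Field k] {v D : ℕ} {J : Ideal (MvPolynomial (Fin v) k)}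
    {g : Fin D → MvPolynomial (Fin v) k} (hg : ∀ l, g l ∈ J) {n : ℕ} {G : MvPolynomial (Fin D) k}
    (hG : ∀ b ∈ G.support, n ≤ b.degree) : MvPolynomial.aeval g G ∈ J ^ n := by
  rw [MvPolynomial.aeval_def, MvPolynomial.eval₂_eq']
  refine Ideal.sum_mem _ fun b hb => Ideal.mul_mem_left _ _ ?_
  have h := hG b hb
  rw [Finsupp.degree_eq_sum] at h
  exact Ideal.pow_le_pow_right h (prod_mem hg fun l => b l)

/-- elements of small degree do not lie in the power -/
theorem claimA {k : Type} [Field k] {v D : ℕ} {J : Ideal (MvPolynomial (Fin v) k)}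
    {g : Fin D → MvPolynomial (Fin v) k} (hg : ∀ l, g l ∈ J) (hJ : J ≤ mm k v)
    (h : ∀ (n : ℕ) (G : MvPolynomial (Fin D) k), G ≠ 0 → G.IsHomogeneous n →
      MvPolynomial.aeval g G ∉ mm k v * J ^ n) (N : ℕ) (G : MvPolynomial (Fin D) k) (hG : G ≠ 0)
    (hN : G.totalDegree < N) : MvPolynomial.aeval g G ∉ J ^ N := by
  classical
  intro hmem
  have hex : ∃ j, MvPolynomial.homogeneousComponent j G ≠ 0 := by
    by_contra hc
    push Not at hc
    apply hG
    rw [← MvPolynomial.sum_homogeneousComponent G]
    exact Finset.sum_eq_zero fun i _ => hc i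
  obtain ⟨j, hj, hmin⟩ : ∃ j, MvPolynomial.homogeneousComponent j G ≠ 0 ∧
      ∀ i < j, MvPolynomial.homogeneousComponent i G = 0 := by
    refine ⟨Nat.find hex, Nat.find_spec hex, fun i hi => ?_⟩
    by_contra hc
    exact Nat.find_min hex hi hc
  have hjN : j < N := by
    by_contra hc
    apply hj
    exact MvPolynomial.homogeneousComponent_eq_zero _ _ (by omega)
  refine h j _ hj (MvPolynomial.homogeneousComponent_isHomogeneous j G) ?_
  have e : MvPolynomial.aeval g (MvPolynomial.homogeneousComponent j G) =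
      MvPolynomial.aeval g G -
        MvPolynomial.aeval g (G - MvPolynomial.homogeneousComponent j G) := by
    rw [map_sub]; ring
  have h1 : MvPolynomial.aeval g (G - MvPolynomial.homogeneousComponent j G) ∈ J ^ (j + 1) := by
    apply aeval_mem hg
    intro b hb
    rw [MvPolynomial.mem_support_iff, MvPolynomial.coeff_sub,
      MvPolynomial.coeff_homogeneousComponent] at hb
    by_contra hc
    have hle : b.degree ≤ j := by omega
    rcases Nat.lt_or_ge b.degree j with hlt | hge
    · have h0 := hmin _ hlt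
      have h2 : MvPolynomial.coeff b (MvPolynomial.homogeneousComponent b.degree G) = 0 := by
        rw [h0, MvPolynomial.coeff_zero]
      rw [MvPolynomial.coeff_homogeneousComponent, if_pos rfl] at h2
      apply hb
      rw [h2, if_neg (by omega), sub_zero]
    · have h3 : b.degree = j := le_antisymm hle hge
      apply hb
      rw [if_pos h3, sub_self]
  have h2 : MvPolynomial.aeval g (MvPolynomial.homogeneousComponent j G) ∈ J ^ (j + 1) := by
    rw [e]
    exact Ideal.sub_mem _ (Ideal.pow_le_pow_right hjN hmem) h1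
  rw [pow_succ'] at h2
  exact Ideal.mul_mono_left hJ h2

/-- the quotient is finite dimensional -/
theorem fin_quot {k : Type} [Field k] {v c : ℕ} {J : Ideal (MvPolynomial (Fin v) k)}
    (hJ : mm k v ^ c ≤ J) : Module.Finite k (MvPolynomial (Fin v) k ⧸ J) := by
  classical
  have hfin : {b : Fin v →₀ ℕ | b.degree < c}.Finite := by
    have h1 : (Set.Iic (Finsupp.equivFunOnFinite.symm fun _ : Fin v => c)).Finite :=
      Set.finite_Iic _
    refine h1.subset fun b hb => ?_
    rw [Set.mem_Iic]
    intro i
    have h2 : b i ≤ b.degree := Finsupp.le_degree i b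
    have h3 : b.degree < c := hb
    simp only [Finsupp.equivFunOnFinite_symm_apply_apply]
    omega
  refine ⟨⟨(hfin.toFinset.image fun b => Ideal.Quotient.mk J (MvPolynomial.monomial b 1)), ?_⟩⟩
  rw [eq_top_iff]
  rintro x -
  obtain ⟨p, rfl⟩ := Ideal.Quotient.mk_surjective x
  rw [p.as_sum, map_sum]
  refine Submodule.sum_mem _ fun b _ => ?_
  have e : Ideal.Quotient.mk J (MvPolynomial.monomial b (MvPolynomial.coeff b p)) =
      MvPolynomial.coeff b p • Ideal.Quotient.mk J (MvPolynomial.monomial b 1) := by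
    have e1 : MvPolynomial.monomial b (MvPolynomial.coeff b p) =
        MvPolynomial.coeff b p • (MvPolynomial.monomial b 1 : MvPolynomial (Fin v) k) := by
      rw [MvPolynomial.smul_monomial, smul_eq_mul, mul_one]
    rw [e1]
    exact map_smul (Ideal.Quotient.mkₐ k J) _ _
  rw [e]
  apply Submodule.smul_mem
  by_cases hb : b.degree < c
  · apply Submodule.subset_span
    rw [Finset.mem_coe, Finset.mem_image]
    exact ⟨b, hfin.mem_toFinset.2 hb, rfl⟩
  · have h0 : (MvPolynomial.monomial b 1 : MvPolynomial (Fin v) k) ∈ J := by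
      apply hJ
      have h1 := prod_mem (J := mm k v) (g := fun l : Fin v => MvPolynomial.X l)
        (fun l => Ideal.subset_span ⟨l, rfl⟩) (fun l => b l)
      have e2 : (MvPolynomial.monomial b 1 : MvPolynomial (Fin v) k) =
          ∏ l, MvPolynomial.X l ^ b l := by
        rw [MvPolynomial.monomial_eq, MvPolynomial.C_1, one_mul, Finsupp.prod_fintype]
        intro i
        exact pow_zero _
      rw [e2]
      refine Ideal.pow_le_pow_right ?_ h1
      rw [← Finsupp.degree_eq_sum]
      omega
    rw [Ideal.Quotient.eq_zero_iff_mem.2 h0]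
    exact Submodule.zero_mem _

/-- the polynomial with given coefficients in a box -/
noncomputable def bx {k : Type} [Field k] (D m : ℕ) (a : (Fin D → Fin (m + 1)) → k) :
    MvPolynomial (Fin D) k :=
  ∑ b, MvPolynomial.monomial (Finsupp.equivFunOnFinite.symm fun l => (b l : ℕ)) (a b)

theorem bx_coeff {k : Type} [Field k] {D m : ℕ} (a : (Fin D → Fin (m + 1)) → k)
    (b : Fin D → Fin (m + 1)) :
    MvPolynomial.coeff (Finsupp.equivFunOnFinite.symm fun l => (b l : ℕ)) (bx D m a) = a b := by
  classical
  unfold bx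
  rw [MvPolynomial.coeff_sum, Finset.sum_eq_single b]
  · rw [MvPolynomial.coeff_monomial, if_pos rfl]
  · intro b' _ hne
    rw [MvPolynomial.coeff_monomial, if_neg]
    intro h
    apply hne
    have h1 := Finsupp.equivFunOnFinite.symm.injective h
    funext l
    exact Fin.ext (congrFun h1 l)
  · intro h
    exact absurd (Finset.mem_univ _) h

theorem bx_deg {k : Type} [Field k] {D m : ℕ} (a : (Fin D → Fin (m + 1)) → k) :
    (bx D m a).totalDegree ≤ D * m := by
  unfold bx
  refine MvPolynomial.totalDegree_finsetSum_le fun b _ => ?_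
  refine (MvPolynomial.totalDegree_monomial_le _ _).trans ?_
  rw [Finsupp.sum_fintype _ _ (fun _ => rfl)]
  have h : ∑ l : Fin D, (Finsupp.equivFunOnFinite.symm fun l => (b l : ℕ)) l ≤ ∑ _l : Fin D, m := by
    refine Finset.sum_le_sum fun l _ => ?_
    have := (b l).2
    simp only [Finsupp.equivFunOnFinite_symm_apply_apply]
    omega
  simpa using h

/-- **REDA** -/
theorem reda : S_LECH → S_REDA := by
  classical
  intro hL k _ v c J hc hJ D g hg hD
  by_contra hcon
  push Not at hcon
  have := fin_quot hc
  obtain ⟨m, hm⟩ : ∃ m, m = D ^ v * dg J := ⟨_, rfl⟩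
  obtain ⟨hfin, hle⟩ := hL k v J (D * m + 1)
  let φ : ((Fin D → Fin (m + 1)) → k) →ₗ[k] (MvPolynomial (Fin v) k ⧸ J ^ (D * m + 1)) :=
    { toFun := fun a => Ideal.Quotient.mk _ (MvPolynomial.aeval g (bx D m a))
      map_add' := by
        intro a b
        have e : bx D m (a + b) = bx D m a + bx D m b := by
          unfold bx
          rw [← Finset.sum_add_distrib]
          refine Finset.sum_congr rfl fun x _ => ?_
          rw [Pi.add_apply, map_add]
        rw [e, map_add, map_add]
      map_smul' := by
        intro r a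
        have e : bx D m (r • a) = r • bx D m a := by
          unfold bx
          rw [Finset.smul_sum]
          refine Finset.sum_congr rfl fun x _ => ?_
          rw [Pi.smul_apply, MvPolynomial.smul_monomial]
        rw [e, map_smul]
        exact map_smul (Ideal.Quotient.mkₐ k (J ^ (D * m + 1))) _ _ }
  have hinj : Function.Injective φ := by
    rw [injective_iff_map_eq_zero]
    intro a ha
    have h1 : MvPolynomial.aeval g (bx D m a) ∈ J ^ (D * m + 1) :=
      Ideal.Quotient.eq_zero_iff_mem.1 ha
    by_contra hne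
    refine claimA hg hJ (fun n G h2 h3 => hcon n G h2 h3) (D * m + 1) (bx D m a) ?_
      (Nat.lt_succ_of_le (bx_deg a)) h1
    intro h0
    apply hne
    funext b
    rw [← bx_coeff a b, h0]
    simp
  have h1 := LinearMap.finrank_le_finrank_of_injective hinj
  rw [Module.finrank_fintype_fun_eq_card, Fintype.card_fun, Fintype.card_fin,
    Fintype.card_fin] at h1
  have h2 : (m + 1) ^ D ≤ (D * m + 1) ^ v * dg J := h1.trans hle
  have h3 : (m + 1) ^ (v + 1) ≤ (m + 1) ^ D := Nat.pow_le_pow_right (Nat.succ_pos _) hD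
  have h4 : (D * m + 1) ^ v ≤ (D * (m + 1)) ^ v := by
    apply Nat.pow_le_pow_left
    have : 1 ≤ D := by omega
    nlinarith
  have h5 : (m + 1) ^ (v + 1) ≤ (m + 1) ^ v * m := by
    calc (m + 1) ^ (v + 1) ≤ (D * (m + 1)) ^ v * dg J :=
          h3.trans (h2.trans (Nat.mul_le_mul_right _ h4))
      _ = (m + 1) ^ v * m := by rw [hm, mul_pow]; ring
  rw [pow_succ] at h5
  have h6 : 0 < (m + 1) ^ v := by positivity
  have h7 := Nat.le_of_mul_le_mul_left h5 h6
  omega

end Pool.Agent.Y655.EM
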