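import Pool.Agent.Y234.EM.Stm

/-!
# Assembling the family
-/

set_option autoImplicit false

namespace Pool.Agent.Y655.EM

open Pool.Agent.Y234.EM Pool.Agent.H826R3.SM

section

variable {k : Type} [Field k]

theorem flat_LL : Module.Flat (PowerSeries k) (LL k) := by
  have h1 : Module.Flat (PowerSeries k) (LaurentSeries k) :=
    IsLocalization.flat (LaurentSeries k) (nonZeroDivisors (PowerSeries k))
  exact Module.Flat.trans (PowerSeries k) (LaurentSeries k) (LL k)

theorem reduced_pi {s : ℕ} (Q : Fin s → Type) [∀ j, CommRing (Q j)]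
    [∀ j, Algebra (PowerSeries k) (Q j)]
    (h : ∀ j, IsReduced (TensorProduct (PowerSeries k) (LL k) (Q j))) :
    IsReduced (TensorProduct (PowerSeries k) (LL k) (∀ j, Q j)) := by
  let e := Algebra.TensorProduct.piRight (PowerSeries k) (LL k) (LL k) Q
  have h2 : IsReduced (∀ j, TensorProduct (PowerSeries k) (LL k) (Q j)) := by
    refine ⟨fun x hx => ?_⟩
    funext j
    exact (h j).eq_zero _ (hx.map (Pi.evalRingHom _ j))
  exact isReduced_of_injective e e.injective

theorem reduced_sub {A B : Type} [CommRing A] [CommRing B] [Algebra (PowerSeries k) A]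
    [Algebra (PowerSeries k) B] (ψ : A →ₐ[PowerSeries k] B) (hψ : Function.Injective ψ)
    (h : IsReduced (TensorProduct (PowerSeries k) (LL k) B)) :
    IsReduced (TensorProduct (PowerSeries k) (LL k) A) := by
  have := flat_LL (k := k)
  have h1 := Module.Flat.lTensor_preserves_injective_linearMap (M := LL k) ψ.toLinearMap hψ
  have h2 : Function.Injective (Algebra.TensorProduct.map (AlgHom.id (LL k) (LL k)) ψ) := h1
  exact isReduced_of_injective _ h2

end

/-- **FAMC** -/
theorem famc : S_FAMC := by
  classical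
  intro k _ v M N s f c hR hker
  let K : Ideal (MvPolynomial (Fin v) (PowerSeries k)) := ⨅ j, Ic f (c j)
  let ψ : (MvPolynomial (Fin v) (PowerSeries k) ⧸ K) →ₐ[PowerSeries k]
      (∀ j, MvPolynomial (Fin v) (PowerSeries k) ⧸ Ic f (c j)) :=
    Ideal.Quotient.liftₐ K (AlgHom.pi fun j => Ideal.Quotient.mkₐ (PowerSeries k) (Ic f (c j)))
      (by
        intro a ha
        funext j
        exact Ideal.Quotient.eq_zero_iff_mem.2 ((Submodule.mem_iInf _).1 ha j))
  have hψ : Function.Injective ψ := by
    rw [injective_iff_map_eq_zero]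
    intro x hx
    obtain ⟨a, rfl⟩ := Ideal.Quotient.mk_surjective x
    rw [Ideal.Quotient.eq_zero_iff_mem]
    refine (Submodule.mem_iInf _).2 fun j => ?_
    exact Ideal.Quotient.eq_zero_iff_mem.1 (congrFun hx j)
  have i1 : ∀ j, Module.Finite (PowerSeries k) (MvPolynomial (Fin v) (PowerSeries k) ⧸ Ic f (c j)) :=
    fun j => (hR j).1
  have i2 : ∀ j, Module.Free (PowerSeries k) (MvPolynomial (Fin v) (PowerSeries k) ⧸ Ic f (c j)) :=
    fun j => (hR j).2.1
  have hfin : Module.Finite (PowerSeries k) (MvPolynomial (Fin v) (PowerSeries k) ⧸ K) :=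
    Module.Finite.of_injective ψ.toLinearMap hψ
  have hfree : Module.Free (PowerSeries k) (MvPolynomial (Fin v) (PowerSeries k) ⧸ K) :=
    Module.Free.of_equiv (LinearEquiv.ofInjective ψ.toLinearMap hψ).symm
  refine ⟨MvPolynomial (Fin v) (PowerSeries k) ⧸ K, inferInstance, inferInstance, hfin, hfree,
    reduced_sub ψ hψ (reduced_pi _ fun j => (hR j).2.2.2), ?_,
    Ideal.Quotient.lift K ((Ideal.Quotient.mk (qq f ^ N)).comp
      (MvPolynomial.map (PowerSeries.constantCoeff (R := k)))) ?_, ?_, ?_⟩
  · refine (LinearMap.finrank_le_finrank_of_injective (f := ψ.toLinearMap) hψ).trans ?_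
    rw [Module.finrank_pi_fintype, Finset.sum_congr rfl fun j _ => (hR j).2.2.1]
    simp
  · intro a ha
    exact Ideal.Quotient.eq_zero_iff_mem.2 (hker a fun j => (Submodule.mem_iInf _).1 ha j)
  · apply Ideal.Quotient.lift_surjective_of_surjective
    exact Ideal.Quotient.mk_surjective.comp
      (MvPolynomial.map_surjective _ PowerSeries.constantCoeff_surj)
  · intro r
    show Ideal.Quotient.mk (qq f ^ N) (MvPolynomial.map (PowerSeries.constantCoeff (R := k))
      (MvPolynomial.C r)) = _
    rw [MvPolynomial.map_C]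
    rfl

end Pool.Agent.Y655.EM
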